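import Pool.Agent.helper48.AN.SpecA

/-!
# an:BC: base change of one-point data
-/

namespace AN

open scoped Classical

noncomputable section

theorem BC_om {R R' : Type} [CommRing R] [CommRing R'] (φ : R →+* R') {g : ℕ}
    (γ : Fin g → ℕ) (a : ℕ → LS R) (n : ℤ) :
    om γ (fun r => mp φ (a r)) n = mp φ (om γ a n) := by
  apply LS.ext
  intro m
  rw [cf_mp]
  unfold om
  rw [cf_ofFun, cf_ofFun]
  split_ifs
  · rw [map_one]
  · rw [cf_mp, map_neg]
  · rw [map_zero]

theorem BC_AA {R R' : Type} [CommRing R] [CommRing R'] (φ : R →+* R') {g : ℕ}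
    (γ : Fin g → ℕ) (a : ℕ → LS R) : ∀ f ∈ AA γ a, mp φ f ∈ AA γ (fun r => mp φ (a r)) := by
  intro f hf
  unfold AA at hf
  induction hf using Submodule.span_induction with
  | mem x hx =>
    obtain ⟨r, hr, rfl⟩ := hx
    exact Submodule.subset_span ⟨r, hr, rfl⟩
  | zero => rw [map_zero]; exact zero_mem _
  | add x y _ _ hx hy => rw [map_add]; exact add_mem hx hy
  | smul c x _ hx => rw [mp_smul]; exact Submodule.smul_mem _ _ hx

theorem BC_OmA {R R' : Type} [CommRing R] [CommRing R'] (φ : R →+* R') {g : ℕ}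
    (γ : Fin g → ℕ) (a : ℕ → LS R) : ∀ f ∈ OmA γ a, mp φ f ∈ OmA γ (fun r => mp φ (a r)) := by
  intro f hf
  unfold OmA at hf
  induction hf using Submodule.span_induction with
  | mem x hx =>
    obtain ⟨u, hu, h, hh, rfl⟩ := hx
    refine Submodule.subset_span ⟨mp φ u, BC_AA φ γ a u hu, mp φ h, BC_AA φ γ a h hh, ?_⟩
    rw [map_mul, dd_mp]
  | zero => rw [map_zero]; exact zero_mem _
  | add x y _ _ hx hy => rw [map_add]; exact add_mem hx hy
  | smul c x _ hx => rw [mp_smul]; exact Submodule.smul_mem _ _ hx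

theorem BC : BC_stmt := by
  intro R R' _ _ φ g N γ a ν τ hK
  refine ⟨⟨hK.inj, hK.pos, ?_, ?_, ?_, ?_, ?_⟩, BC_AA φ γ a, BC_OmA φ γ a, ?_, ?_⟩
  · rw [hK.one, map_one]
  · intro r r' hr hr'
    rw [cf_mp, hK.coef r r' hr hr']
    split_ifs <;> simp
  · intro r r' hr hr'
    rw [← map_mul]
    exact BC_AA φ γ a _ (hK.mul r r' hr hr')
  · intro r r' hr hr'
    rw [dd_mp, ← map_mul, res_mp, hK.res0 r r' hr hr', map_zero]
  · intro n hn
    rw [BC_om]
    exact BC_OmA φ γ a _ (hK.gen n hn)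
  · intro p
    ext i j
    rw [Matrix.map_apply]
    unfold HW
    split_ifs
    · rw [map_one]
    · rw [map_zero]
    · rw [cf_mp, map_neg]
  · intro hT
    refine ⟨hT.inj, hT.pos, ?_, ?_⟩
    · intro n n' hn hn' h h'
      rw [cf_mp, hT.coef n n' hn hn' h h']
      split_ifs <;> simp
    · intro n r hn h h'
      rw [dd_mp, ← map_mul]
      exact BC_AA φ γ a _ (hT.act n r hn h h')

end

end AN
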