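import Pool.Agent.helper48.AN.SpecA

/-!
# an:CA: exact Laurent series in characteristic `p`
-/

namespace AN

open scoped Classical

noncomputable section

theorem CA_inv (p : ℕ) [hp : Fact p.Prime] (R : Type) [CommRing R] [CharP R p] (n : ℤ)
    (hn : ¬ (p : ℤ) ∣ n) : ∃ u : ℤ, (n : R) * (u : R) = 1 := by
  have h1 : IsCoprime (p : ℤ) n :=
    (Prime.coprime_iff_not_dvd (Nat.prime_iff_prime_int.mp hp.out)).mpr hn
  obtain ⟨a, b, hab⟩ := h1
  refine ⟨b, ?_⟩
  have h2 := congrArg (Int.cast : ℤ → R) hab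
  push_cast at h2
  rw [CharP.cast_eq_zero, mul_zero, zero_add] at h2
  rw [mul_comm]
  exact h2

theorem CA : CA_stmt := by
  intro p hp R _ _ z
  constructor
  · rintro ⟨y, rfl⟩ m hm
    rw [cf_dd, (CharP.intCast_eq_zero_iff R p (m + 1)).mpr hm, zero_mul]
  · intro h
    obtain ⟨N, hN⟩ := exists_lb z
    have hex : ∀ n : ℤ, ∃ u : ℤ, ¬ (p : ℤ) ∣ n → (n : R) * (u : R) = 1 := by
      intro n
      by_cases hn : (p : ℤ) ∣ n
      · exact ⟨0, fun h => absurd hn h⟩
      · obtain ⟨u, hu⟩ := CA_inv p R n hn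
        exact ⟨u, fun _ => hu⟩
    choose u hu using hex
    refine ⟨ofFun (fun n => (u n : R) * cf z (n - 1)) (N + 1) ?_, ?_⟩
    · intro n hn
      rw [hN (n - 1) (by omega), mul_zero]
    · apply LS.ext
      intro m
      rw [cf_dd, cf_ofFun, show m + 1 - 1 = m by ring]
      by_cases hm : (p : ℤ) ∣ m + 1
      · rw [h m hm, mul_zero, mul_zero]
      · rw [← mul_assoc, hu (m + 1) hm, one_mul]

end

end AN
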